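import Mathlib

/-!
# Chains given by weighted edges with letters: basic definitions (MP_81fcf0_co, part A)

`Ch` is a finite, possibly substochastic chain in both directions. `P t x z` is the weight of the
paths of `t` edges from `x` to `z`, `rev` the reversed chain. An edge with letter `y` used at time
`t` by a path from `x` is amplified if the posterior probability of the letter `y` at its target is at
least `Lam` times its prior weight.
-/

set_option autoImplicit false

open Finset
open scoped BigOperators Classical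

namespace Pool.Agent.H90.SPW

/-- a finite chain given by weighted edges; every edge may carry a letter -/
structure Ch (X E Y : Type) [Fintype X] [Fintype E] where
  src : E → X
  tgt : E → X
  wt : E → ℝ
  lt : E → Option Y
  wt_nonneg : ∀ e, 0 ≤ wt e
  out_le : ∀ x, ∑ e, (if src e = x then wt e else 0) ≤ 1
  in_le : ∀ x, ∑ e, (if tgt e = x then wt e else 0) ≤ 1

variable {X E Y : Type} [Fintype X] [Fintype E]

/-- the reversed chain -/
def Ch.rev (c : Ch X E Y) : Ch X E Y where
  src := c.tgt
  tgt := c.src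
  wt := c.wt
  lt := c.lt
  wt_nonneg := c.wt_nonneg
  out_le := c.in_le
  in_le := c.out_le

/-- the transition matrix -/
noncomputable def Ch.K (c : Ch X E Y) : Matrix X X ℝ :=
  fun x z => ∑ e, if c.src e = x ∧ c.tgt e = z then c.wt e else 0

/-- weight of the paths of `t` edges from `x` to `z` -/
noncomputable def Ch.P (c : Ch X E Y) (t : ℕ) (x z : X) : ℝ := (c.K ^ t) x z

/-- the weight of an edge if it carries the letter `y` -/
noncomputable def Ch.use (c : Ch X E Y) (y : Y) (e : E) : ℝ := if c.lt e = some y then c.wt e else 0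

/-- every letter is used at most `kap` times in `n` steps, in expectation, from every state -/
def Ch.UseLe (c : Ch X E Y) (n : ℕ) (kap : ℝ) : Prop :=
  ∀ x y, ∑ t ∈ range n, ∑ e, c.P t x (c.src e) * c.use y e ≤ kap

/-- prior weight of the letter `y` among the edges into `z` -/
noncomputable def Ch.inW (c : Ch X E Y) (z : X) (y : Y) : ℝ :=
  ∑ e, if c.tgt e = z then c.use y e else 0

/-- weight of the paths from `x` which arrive in `z` by an edge number `t` with the letter `y` -/
noncomputable def Ch.inA (c : Ch X E Y) (t : ℕ) (x z : X) (y : Y) : ℝ :=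
  ∑ e, if c.tgt e = z then c.P t x (c.src e) * c.use y e else 0

/-- amplified: the posterior is at least `Lam` times the prior -/
def Ch.Amp (c : Ch X E Y) (Lam : ℝ) (t : ℕ) (x z : X) (y : Y) : Prop :=
  Lam * c.inW z y * c.P (t + 1) x z ≤ c.inA t x z y

/-- expected number of uses of `y` on the way from `x` to `x'` in `h` steps (not normalised) -/
noncomputable def Ch.Occ (c : Ch X E Y) (h : ℕ) (x x' : X) (y : Y) : ℝ :=
  ∑ t ∈ range h, ∑ e, c.P t x (c.src e) * c.use y e * c.P (h - 1 - t) (c.tgt e) x'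

/-- the same, only the uses which are amplified from `x` -/
noncomputable def Ch.OccA (c : Ch X E Y) (Lam : ℝ) (h : ℕ) (x x' : X) (y : Y) : ℝ :=
  ∑ t ∈ range h, ∑ e, if c.Amp Lam t x (c.tgt e) y then
    c.P t x (c.src e) * c.use y e * c.P (h - 1 - t) (c.tgt e) x' else 0

/-- expected number of pairs of uses of one letter, the first amplified from `x`, the second amplified
towards `x'` (not normalised) -/
noncomputable def Ch.DE [Fintype Y] (c : Ch X E Y) (Lam : ℝ) (h : ℕ) (x x' : X) : ℝ :=
  ∑ y, ∑ t₁ ∈ range h, ∑ t₂ ∈ range h, if t₁ < t₂ then ∑ e₁, ∑ e₂,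
    (if c.Amp Lam t₁ x (c.tgt e₁) y ∧ c.rev.Amp Lam (h - 1 - t₂) x' (c.src e₂) y then
      c.P t₁ x (c.src e₁) * c.use y e₁ * c.P (t₂ - t₁ - 1) (c.tgt e₁) (c.src e₂) * c.use y e₂ *
        c.P (h - 1 - t₂) (c.tgt e₂) x' else 0) else 0

/-- the sum of the prior weights of `y` along a path from `x` to `z` (not normalised) -/
noncomputable def Ch.BW (c : Ch X E Y) (t : ℕ) (x z : X) (y : Y) : ℝ :=
  ∑ j ∈ range t, ∑ w, c.P (j + 1) x w * c.inW w y * c.P (t - 1 - j) w z

/-- expected number of pairs of uses of one letter in `k` blocks of length `h'`, the first amplified from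
the start of its block, the second amplified towards the end of its block (not normalised) -/
noncomputable def Ch.TP [Fintype Y] (c : Ch X E Y) (Lam : ℝ) (k h' : ℕ) (x x' : X) : ℝ :=
  (∑ i ∈ range k, ∑ a, ∑ b, c.P (i * h') x a * c.DE Lam h' a b * c.P ((k - 1 - i) * h') b x') +
  ∑ i ∈ range k, ∑ j ∈ range k, if i < j then ∑ y, ∑ a, ∑ b, ∑ u, ∑ v,
    c.P (i * h') x a * c.OccA Lam h' a b y * c.P ((j - i - 1) * h') b u *
      c.rev.OccA Lam h' v u y * c.P ((k - 1 - j) * h') v x' else 0

/-! ## basic facts -/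

lemma Ch.use_nonneg (c : Ch X E Y) (y : Y) (e : E) : 0 ≤ c.use y e := by
  unfold Ch.use; split
  · exact c.wt_nonneg e
  · exact le_rfl

lemma Ch.use_le (c : Ch X E Y) (y : Y) (e : E) : c.use y e ≤ c.wt e := by
  unfold Ch.use; split
  · exact le_rfl
  · exact c.wt_nonneg e

lemma Ch.K_nonneg (c : Ch X E Y) (x z : X) : 0 ≤ c.K x z := by
  unfold Ch.K
  refine Finset.sum_nonneg fun e _ => ?_
  split
  · exact c.wt_nonneg e
  · exact le_rfl

lemma Ch.P_nonneg (c : Ch X E Y) (t : ℕ) (x z : X) : 0 ≤ c.P t x z := by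
  unfold Ch.P
  induction t generalizing x z with
  | zero => rw [pow_zero, Matrix.one_apply]; split <;> norm_num
  | succ t ih =>
    rw [pow_succ, Matrix.mul_apply]
    exact Finset.sum_nonneg fun w _ => mul_nonneg (ih x w) (c.K_nonneg w z)

lemma Ch.P_zero (c : Ch X E Y) (x z : X) : c.P 0 x z = if x = z then 1 else 0 := by
  unfold Ch.P; rw [pow_zero, Matrix.one_apply]

lemma Ch.P_add (c : Ch X E Y) (s t : ℕ) (x z : X) : c.P (s + t) x z = ∑ w, c.P s x w * c.P t w z := by
  unfold Ch.P; rw [pow_add, Matrix.mul_apply]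

lemma Ch.P_one (c : Ch X E Y) (x z : X) : c.P 1 x z = c.K x z := by
  unfold Ch.P; rw [pow_one]

/-- sums over the edges out of the state `w` -/
lemma Ch.sum_K_left (c : Ch X E Y) (w : X) (g : X → ℝ) :
    ∑ z, c.K w z * g z = ∑ e, if c.src e = w then c.wt e * g (c.tgt e) else 0 := by
  unfold Ch.K
  simp_rw [Finset.sum_mul]
  rw [Finset.sum_comm]
  refine Finset.sum_congr rfl fun e _ => ?_
  by_cases h : c.src e = w
  · simp [h]
  · simp [h]

lemma Ch.sum_K_right (c : Ch X E Y) (z : X) (f : X → ℝ) :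
    ∑ w, f w * c.K w z = ∑ e, if c.tgt e = z then f (c.src e) * c.wt e else 0 := by
  unfold Ch.K
  simp_rw [Finset.mul_sum]
  rw [Finset.sum_comm]
  refine Finset.sum_congr rfl fun e _ => ?_
  by_cases h : c.tgt e = z
  · simp [h]
  · simp [h]

/-- last edge -/
lemma Ch.P_succ (c : Ch X E Y) (t : ℕ) (x z : X) :
    c.P (t + 1) x z = ∑ e, if c.tgt e = z then c.P t x (c.src e) * c.wt e else 0 := by
  rw [c.P_add, ← c.sum_K_right z (fun w => c.P t x w)]
  simp_rw [c.P_one]

/-- first edge -/
lemma Ch.P_succ' (c : Ch X E Y) (t : ℕ) (x z : X) :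
    c.P (t + 1) x z = ∑ e, if c.src e = x then c.wt e * c.P t (c.tgt e) z else 0 := by
  rw [add_comm, c.P_add, ← c.sum_K_left x (fun w => c.P t w z)]
  simp_rw [c.P_one]

lemma Ch.rev_rev (c : Ch X E Y) : c.rev.rev = c := rfl

lemma Ch.rev_K (c : Ch X E Y) : c.rev.K = c.K.transpose := by
  ext x z
  simp only [Ch.K, Ch.rev, Matrix.transpose_apply]
  refine Finset.sum_congr rfl fun e _ => ?_
  simp only [and_comm]

lemma Ch.rev_P (c : Ch X E Y) (t : ℕ) (x z : X) : c.rev.P t x z = c.P t z x := by
  unfold Ch.P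
  rw [c.rev_K, ← Matrix.transpose_pow, Matrix.transpose_apply]

lemma Ch.rev_use (c : Ch X E Y) (y : Y) (e : E) : c.rev.use y e = c.use y e := rfl

lemma Ch.out_sum_le (c : Ch X E Y) (t : ℕ) (x : X) : ∑ z, c.P t x z ≤ 1 := by
  induction t generalizing x with
  | zero => simp [c.P_zero]
  | succ t ih =>
    simp_rw [c.P_succ' t x]
    rw [Finset.sum_comm]
    calc ∑ e, ∑ z, (if c.src e = x then c.wt e * c.P t (c.tgt e) z else 0)
        ≤ ∑ e, (if c.src e = x then c.wt e else 0) := by
          refine Finset.sum_le_sum fun e _ => ?_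
          by_cases h : c.src e = x
          · simp only [h, if_true]
            rw [← Finset.mul_sum]
            calc c.wt e * ∑ z, c.P t (c.tgt e) z ≤ c.wt e * 1 :=
                  mul_le_mul_of_nonneg_left (ih _) (c.wt_nonneg e)
              _ = c.wt e := mul_one _
          · simp [h]
      _ ≤ 1 := c.out_le x

lemma Ch.in_sum_le (c : Ch X E Y) (t : ℕ) (z : X) : ∑ x, c.P t x z ≤ 1 := by
  have h := c.rev.out_sum_le t z
  simpa [c.rev_P] using h

lemma Ch.P_le_one (c : Ch X E Y) (t : ℕ) (x z : X) : c.P t x z ≤ 1 :=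
  le_trans (Finset.single_le_sum (f := fun w => c.P t x w) (fun w _ => c.P_nonneg t x w)
    (Finset.mem_univ z)) (c.out_sum_le t x)

end Pool.Agent.H90.SPW
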