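import Pool.Agent.H90.SPW.LinkN

/-!
# Part A: the theorem `T_A`
-/

set_option autoImplicit false

open Finset
open scoped BigOperators Classical

namespace Pool.Agent.H90.SPW

open Pool.Agent.H67.AT

section

variable {X Y : Type} [Fintype X] [Fintype Y] (P : Matrix X X ℝ) (M : Y → Matrix X X ℝ) {n : ℕ}
  {κ : ℝ} (hS : Sys P M n κ)

lemma uses_eq (h : ℕ) (x x' : X) (y : Y) :
    uses P M h x x' y = (mkCh P M hS).Occ h x x' y / (mkCh P M hS).P h x x' := by
  rw [mkCh_Occ, mkCh_P]
  rfl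

include hS in
lemma skw_nonneg' {k : ℕ} (h : ℕ) (s : Fin (k + 1) → X) : 0 ≤ skW (P ^ h) k s := by
  unfold skW
  refine Finset.prod_nonneg fun i _ => ?_
  have := (mkCh P M hS).P_nonneg h (s i.castSucc) (s i.succ)
  rwa [mkCh_P] at this

/-- a failing skeleton is not good -/
lemma failw_le (Lam eta cc β : ℝ) (hβ : 0 < β) (β' : ℝ) (hβ' : β' ≤ β) (heta : 0 < eta) (k h : ℕ)
    (x x' : X) :
    failw P M k h β (fun a b => (mkCh P M hS).Good Lam eta cc h a b) x x' ≤
      ∑ s : Fin (k + 1) → X, (if s 0 = x ∧ s (Fin.last k) = x' ∧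
        ¬ (mkCh P M hS).GoodSk Lam eta cc β' k h s
        then skW ((mkCh P M hS).K ^ h) k s else 0) := by
  unfold failw
  refine Finset.sum_le_sum fun s _ => ?_
  rw [mkCh_K]
  have hw : 0 ≤ skW (P ^ h) k s := skw_nonneg' P M hS h s
  by_cases hc : s 0 = x ∧ s (Fin.last k) = x' ∧
    ((∃ i : Fin k, ¬ (mkCh P M hS).Good Lam eta cc h (s i.castSucc) (s i.succ)) ∨
      ∃ i j : Fin k, i < j ∧
        Clash P M h β (s i.castSucc) (s i.succ) (s j.castSucc) (s j.succ))
  · rw [if_pos hc, if_pos]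
    · exact le_of_eq rfl
    · refine ⟨hc.1, hc.2.1, ?_⟩
      intro hg
      rcases hc.2.2 with ⟨i, hi⟩ | ⟨i, j, hij, y, hy1, hy2⟩
      · exact hi (hg.1 i)
      · have hd := hg.2 i j hij
        have hPi : 0 < (mkCh P M hS).P h (s i.castSucc) (s i.succ) := lt_of_lt_of_le heta (hg.1 i).1
        have hPj : 0 < (mkCh P M hS).P h (s j.castSucc) (s j.succ) := lt_of_lt_of_le heta (hg.1 j).1
        rw [uses_eq P M hS, le_div_iff₀ hPi] at hy1
        rw [uses_eq P M hS, le_div_iff₀ hPj] at hy2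
        have m1 : y ∈ (mkCh P M hS).Fr β' h (s i.castSucc) (s i.succ) :=
          le_trans (mul_le_mul_of_nonneg_right hβ' hPi.le) hy1
        have m2 : y ∈ (mkCh P M hS).Fr β' h (s j.castSucc) (s j.succ) :=
          le_trans (mul_le_mul_of_nonneg_right hβ' hPj.le) hy2
        exact Set.disjoint_left.1 hd m1 m2
  · rw [if_neg hc]
    split
    · exact hw
    · exact le_rfl

end

theorem TA_of (hIL : T_IL) (hTOP : T_TOP) (hNA : T_NA) (hBWB : T_BWB) (hE2 : T_E2) : T_A := by
  intro L D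
  set m : ℕ := D + 2 + 2 * L with hm
  refine ⟨2 * (m : ℝ), ?_, fun β₀ hβ₀ => ?_⟩
  · have : (2 : ℝ) ≤ (m : ℝ) := by exact_mod_cast (by omega : 2 ≤ m)
    linarith
  set β : ℝ := min β₀ 1 with hβd
  have hβ : 0 < β := lt_min hβ₀ one_pos
  have hβ1 : β ≤ 1 := min_le_right _ _
  have hββ : β ≤ β₀ := min_le_left _ _
  set G : ℝ := (1 / (β ^ 2 / 128)) ^ (L + 1) with hG
  have hG0 : 0 ≤ G := by positivity
  obtain ⟨k₀, hk₀⟩ := exists_k0 (24 / β + 64 * G * (4 * m + 8) + 16 * (L + D + 4) * G) (L + D + m)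
  refine ⟨k₀, fun k hk X Y iX dX iY dY P M hX hY hS => ?_⟩
  obtain ⟨hR, hk16, hexp⟩ := hk₀ k hk
  have hdX : dX = fun a b => Classical.propDecidable (a = b) := Subsingleton.elim _ _
  subst hdX
  have hkR : (16 : ℝ) ≤ (k : ℝ) := by exact_mod_cast hk16
  have hk0 : (0 : ℝ) < k := by linarith
  have hk1 : (1 : ℝ) ≤ k := by linarith
  have hkN : 0 < k := by omega
  have hR1 : 24 / β ≤ k := by
    have h1 : 0 ≤ 64 * G * (4 * m + 8) := by positivity
    have h2 : 0 ≤ 16 * ((L : ℝ) + D + 4) * G := by positivity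
    linarith
  have hR2 : 64 * G * (4 * m + 8) ≤ k := by
    have h1 : 0 ≤ 24 / β := by positivity
    have h2 : 0 ≤ 16 * ((L : ℝ) + D + 4) * G := by positivity
    linarith
  have hR3 : 16 * ((L : ℝ) + D + 4) * G ≤ k := by
    have h1 : 0 ≤ 24 / β := by positivity
    have h2 : 0 ≤ 64 * G * (4 * m + 8) := by positivity
    linarith
  have hem : (k : ℝ) ^ m * Real.exp (-(k : ℝ)) ≤ 1 := by
    refine le_trans ?_ hexp
    apply mul_le_mul_of_nonneg_right _ (Real.exp_pos _).le
    exact pow_le_pow_right₀ hk1 (by omega)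
  set c := mkCh P M hS with hc
  set Lam : ℝ := (k : ℝ) ^ 4 with hLamd
  have hLam : Real.exp 1 < Lam := by
    have h1 : Real.exp 1 < 2.7182818286 := Real.exp_one_lt_d9
    have h2 : (16 : ℝ) ≤ Lam := by
      calc (16 : ℝ) ≤ k := hkR
        _ = (k : ℝ) ^ 1 := (pow_one _).symm
        _ ≤ _ := pow_le_pow_right₀ hk1 (by norm_num)
    linarith
  set κ : ℝ := 1 / (k : ℝ) ^ 20 with hκ
  have hκ0 : 0 < κ := by positivity
  set b : ℝ := 4 * k * κ with hb
  have hb0 : 0 ≤ b := by positivity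
  have hUp : c.UseLe (k ^ L) κ := mkCh_up P M hS
  have hUm : c.rev.UseLe (k ^ L) κ := mkCh_um P M hS
  set eta : ℕ → ℝ := fun l => (1 / (k : ℝ)) ^ (D + 2 + 2 * (L - l)) with hetad
  have heta0 : ∀ l, 0 < eta l := fun l => by positivity
  have hetam : ∀ l, (1 / (k : ℝ)) ^ m ≤ eta l := by
    intro l
    apply pow_le_pow_of_le_one (by positivity) _ (by omega)
    rw [div_le_one hk0]; exact hk1
  set cc : ℕ → ℝ := fun l => (β ^ 2 / 128) ^ (l + 1) with hccd
  have hcc0 : ∀ l, 0 < cc l := fun l => by positivity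
  have hcondA : ∀ l, Lam * (b + tau0 κ b / eta l) ≤ β / 2 := fun l =>
    num_A k β m hkR hβ hR1 hem (eta l) (hetam l)
  refine ⟨fun l x x' => c.Good Lam (eta l) (cc l) (k ^ l) x x', ?_, ?_, ?_, ?_⟩
  · intro l _ x x' hg
    have := lt_of_lt_of_le (heta0 l) hg.1
    rwa [hc, mkCh_P] at this
  · intro l hl x x' hg
    have hPp : 0 < c.P (k ^ l) x x' := lt_of_lt_of_le (heta0 l) hg.1
    have hf := frozen_sum hNA hBWB hE2 c Lam (eta l) β κ b (k ^ L) (k ^ l) hLam hκ0 hb0 hUm
      (Nat.pow_le_pow_right hkN hl) (heta0 l) (hcondA l) x x' hg.1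
    have hlogm : -Real.log (c.P (k ^ l) x x') ≤ (m : ℝ) * Real.log k := by
      have h1 : Real.log (eta l) ≤ Real.log (c.P (k ^ l) x x') := Real.log_le_log (heta0 l) hg.1
      have h2 : Real.log (eta l) = -(((D + 2 + 2 * (L - l) : ℕ) : ℝ) * Real.log k) := by
        rw [hetad]
        simp only
        rw [Real.log_pow, one_div, Real.log_inv]
        ring
      have h3 : ((D + 2 + 2 * (L - l) : ℕ) : ℝ) * Real.log k ≤ (m : ℝ) * Real.log k := by
        apply mul_le_mul_of_nonneg_right _ (Real.log_nonneg hk1)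
        exact_mod_cast (by omega : D + 2 + 2 * (L - l) ≤ m)
      linarith
    obtain ⟨hlb, hl0, -⟩ := log_bound k (by linarith) m
    calc ∑ y, (if β₀ ≤ uses P M (k ^ l) x x' y then uses P M (k ^ l) x x' y else 0)
        ≤ ∑ y, (if β * c.P (k ^ l) x x' ≤ c.Occ (k ^ l) x x' y then c.Occ (k ^ l) x x' y else 0) /
            c.P (k ^ l) x x' := by
          refine Finset.sum_le_sum fun y _ => ?_
          rw [uses_eq P M hS]
          have hO : 0 ≤ c.Occ (k ^ l) x x' y := by
            unfold Ch.Occ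
            refine Finset.sum_nonneg fun t _ => Finset.sum_nonneg fun e _ => ?_
            exact mul_nonneg (mul_nonneg (c.P_nonneg _ _ _) (c.use_nonneg _ _)) (c.P_nonneg _ _ _)
          by_cases h : β₀ ≤ c.Occ (k ^ l) x x' y / c.P (k ^ l) x x'
          · rw [if_pos h, if_pos]
            rw [le_div_iff₀ hPp] at h
            exact le_trans (mul_le_mul_of_nonneg_right hββ hPp.le) h
          · rw [if_neg h]
            apply div_nonneg _ hPp.le
            split
            · exact hO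
            · exact le_rfl
      _ = (∑ y, (if β * c.P (k ^ l) x x' ≤ c.Occ (k ^ l) x x' y then
            c.Occ (k ^ l) x x' y else 0)) / c.P (k ^ l) x x' := by rw [Finset.sum_div]
      _ ≤ (2 * (-(c.P (k ^ l) x x' * Real.log (c.P (k ^ l) x x')) / (Real.log Lam - 1))) /
            c.P (k ^ l) x x' := div_le_div_of_nonneg_right hf hPp.le
      _ = 2 * (-Real.log (c.P (k ^ l) x x') / (Real.log Lam - 1)) := by
          field_simp
      _ ≤ 2 * ((m : ℝ) * Real.log k / (Real.log Lam - 1)) := by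
          apply mul_le_mul_of_nonneg_left _ (by norm_num)
          exact div_le_div_of_nonneg_right hlogm hl0.le
      _ ≤ 2 * (m : ℝ) := mul_le_mul_of_nonneg_left hlb (by norm_num)
  · intro l hl x x' hg
    have hpow : k * k ^ l = k ^ (l + 1) := by rw [pow_succ]; ring
    have hle : k * k ^ l ≤ k ^ L := by
      rw [hpow]; exact Nat.pow_le_pow_right hkN hl
    refine le_trans (failw_le P M hS Lam (eta l) (cc l) β₀ hβ₀ β hββ (heta0 l) k (k ^ l) x x') ?_
    have hj : L - l = (L - (l + 1)) + 1 := by omega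
    have heta16 : 16 * (k : ℝ) * eta l ≤ eta (l + 1) := by
      have e1 : eta l = eta (l + 1) * (1 / (k : ℝ)) ^ 2 := by
        rw [hetad]
        simp only
        rw [← pow_add]
        congr 1
        omega
      rw [e1]
      have e2 : 16 * (k : ℝ) * (1 / (k : ℝ)) ^ 2 ≤ 1 := by
        rw [one_div_pow, mul_one_div, div_le_one (by positivity)]
        nlinarith
      calc 16 * (k : ℝ) * (eta (l + 1) * (1 / (k : ℝ)) ^ 2)
          = eta (l + 1) * (16 * (k : ℝ) * (1 / (k : ℝ)) ^ 2) := by ring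
        _ ≤ eta (l + 1) * 1 := mul_le_mul_of_nonneg_left e2 (heta0 _).le
        _ = _ := mul_one _
    have heta1 : eta (l + 1) ≤ 1 := by
      apply pow_le_one₀ (by positivity)
      rw [div_le_one hk0]; exact hk1
    have hcardX : (Fintype.card X : ℝ) ≤ (k : ℝ) ^ D := by exact_mod_cast hX
    have hB := num_B k β L D m l (D + 2 + 2 * (L - (l + 1))) hkR hβ hβ1 hR2 hexp hl (by omega)
      (Fintype.card X : ℝ) (Nat.cast_nonneg _) hcardX
    have := hIL X (X × X × Option Y) Y c Lam (eta (l + 1)) (cc (l + 1)) (eta l) (cc l) β κ b k (k ^ l)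
      hLam (by positivity) hkN hκ0 hb0 (hUp.mono hle) (hUm.mono hle) (heta0 _) heta1 (heta0 _)
      heta16 (hcc0 _).le (hcc0 _) hβ (hcondA l) (by
        have : ((k : ℝ) * ((k ^ l : ℕ) : ℝ)) * Fintype.card X = (k : ℝ) * (k : ℝ) ^ l * Fintype.card X := by
          push_cast; ring
        rw [this]
        exact hB) x x' (by rw [hpow]; exact hg)
    rw [hpow, mkCh_P] at this
    exact this
  · intro x
    have hcardX : (Fintype.card X : ℝ) ≤ (k : ℝ) ^ D := by exact_mod_cast hX
    have hcard1 : (1 : ℝ) ≤ Fintype.card X := by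
      have : 0 < Fintype.card X := Fintype.card_pos_iff.2 ⟨x⟩
      exact_mod_cast this
    have hC := num_C k β L D hkR hβ hR3 (Fintype.card X : ℝ) hcard1 hcardX
    have hT := hTOP X (X × X × Option Y) Y c Lam (eta L) (cc L) κ (k ^ L) hLam (heta0 _) (hcc0 _)
      hκ0.le hUp (fun w => if w = x then 1 else 0)
      (fun w => by split <;> norm_num) (by simp)
    have hsum : ∑ w, ∑ x', (if c.Good Lam (eta L) (cc L) (k ^ L) w x' then 0 else
        (if w = x then (1 : ℝ) else 0) * c.P (k ^ L) w x') =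
        ∑ x', (if c.Good Lam (eta L) (cc L) (k ^ L) x x' then 0 else (P ^ k ^ L) x x') := by
      rw [Finset.sum_eq_single x]
      · refine Finset.sum_congr rfl fun x' _ => ?_
        rw [hc, mkCh_P]
        simp
      · intro w _ hw
        refine Finset.sum_eq_zero fun x' _ => ?_
        simp [hw]
      · intro h; exact absurd (Finset.mem_univ x) h
    rw [hsum] at hT
    refine le_trans hT ?_
    have e1 : eta L = (1 / (k : ℝ)) ^ (D + 2) := by
      rw [hetad]; simp
    rw [e1]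
    refine le_trans (le_of_eq ?_) hC
    push_cast
    rfl

end Pool.Agent.H90.SPW
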