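import Pool.Agent.H90.SPW.OutA
import Pool.Agent.H90.SPW.LinkT

/-!
# Part A: `T_A` without hypotheses
-/

set_option autoImplicit false

namespace Pool.Agent.H90.SPW

theorem pf_TA : Pool.Agent.H67.AT.T_A :=
  TA_of outIL outTOP Pool.Agent.H79.SPW.pf_NA Pool.Agent.H21.SPW.pf_BWB outE2

end Pool.Agent.H90.SPW
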