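import Pool.Agent.H90.SPW.Targets
import Pool.Agent.H67.AT.Core

/-!
# The chain of a system of matrices, and the link to `T_A`
-/

set_option autoImplicit false

open Finset
open scoped BigOperators Classical

namespace Pool.Agent.H90.SPW

open Pool.Agent.H67.AT

section chain

variable {X Y : Type} [Fintype X] [Fintype Y]

/-- the chain with one edge for every pair of states and every letter (or none) -/
noncomputable def mkCh (P : Matrix X X ℝ) (M : Y → Matrix X X ℝ) {n : ℕ} {κ : ℝ}
    (hS : Sys P M n κ) : Ch X (X × X × Option Y) Y where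
  src e := e.1
  tgt e := e.2.1
  wt e := match e.2.2 with
    | some y => M y e.1 e.2.1
    | none => P e.1 e.2.1 - ∑ y, M y e.1 e.2.1
  lt e := e.2.2
  wt_nonneg := by
    rintro ⟨x, z, o⟩
    cases o with
    | none => simpa using hS.mle x z
    | some y => exact hS.mnn y x z
  out_le := by
    intro x
    rw [Fintype.sum_prod_type]
    have : ∀ a : X, ∑ p : X × Option Y, (if a = x then
        (match p.2 with
        | some y => M y a p.1
        | none => P a p.1 - ∑ y, M y a p.1) else 0) = if a = x then ∑ z, P a z else 0 := by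
      intro a
      split
      · rw [Fintype.sum_prod_type]
        refine Finset.sum_congr rfl fun z _ => ?_
        rw [Fintype.sum_option]
        ring
      · simp
    simp only at this ⊢
    rw [Finset.sum_congr rfl fun a _ => this a]
    simpa using hS.row x
  in_le := by
    intro z
    rw [Fintype.sum_prod_type]
    have : ∀ a : X, ∑ p : X × Option Y, (if p.1 = z then
        (match p.2 with
        | some y => M y a p.1
        | none => P a p.1 - ∑ y, M y a p.1) else 0) = P a z := by
      intro a
      rw [Fintype.sum_prod_type]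
      have h2 : ∀ w : X, ∑ o : Option Y, (if w = z then
        (match o with
        | some y => M y a w
        | none => P a w - ∑ y, M y a w) else 0) = if w = z then P a w else 0 := by
        intro w
        split
        · rw [Fintype.sum_option]
          ring
        · simp
      rw [Finset.sum_congr rfl fun w _ => h2 w]
      simp
    simp only at this ⊢
    rw [Finset.sum_congr rfl fun a _ => this a]
    exact hS.col z

variable (P : Matrix X X ℝ) (M : Y → Matrix X X ℝ) {n : ℕ} {κ : ℝ} (hS : Sys P M n κ)

/-- sums over the edges with a fixed letter -/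
lemma mkCh_sum_use (y : Y) (F : X → X → ℝ) :
    ∑ e : X × X × Option Y, F e.1 e.2.1 * (mkCh P M hS).use y e = ∑ a, ∑ b, F a b * M y a b := by
  rw [Fintype.sum_prod_type]
  refine Finset.sum_congr rfl fun a _ => ?_
  rw [Fintype.sum_prod_type]
  refine Finset.sum_congr rfl fun b _ => ?_
  rw [Fintype.sum_option]
  have h1 : (mkCh P M hS).use y (a, b, none) = 0 := by
    simp [Ch.use, mkCh]
  have h2 : ∀ o : Y, (mkCh P M hS).use y (a, b, some o) = if o = y then M y a b else 0 := by
    intro o
    simp only [Ch.use, mkCh, Option.some.injEq]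
    by_cases h : o = y
    · simp [h]
    · simp [h]
  simp [h1, h2]

lemma mkCh_K : (mkCh P M hS).K = P := by
  ext x z
  unfold Ch.K
  rw [Fintype.sum_prod_type]
  have h1 : ∀ a : X, ∑ p : X × Option Y, (if (mkCh P M hS).src (a, p) = x ∧
      (mkCh P M hS).tgt (a, p) = z then (mkCh P M hS).wt (a, p) else 0) =
      if a = x then P a z else 0 := by
    intro a
    rw [Fintype.sum_prod_type]
    have h2 : ∀ w : X, ∑ o : Option Y, (if (mkCh P M hS).src (a, w, o) = x ∧
      (mkCh P M hS).tgt (a, w, o) = z then (mkCh P M hS).wt (a, w, o) else 0) =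
        if w = z then (if a = x then P a w else 0) else 0 := by
      intro w
      rw [Fintype.sum_option]
      simp only [mkCh]
      by_cases hw : w = z
      · by_cases ha : a = x
        · simp [hw, ha]
        · simp [ha]
      · simp [hw]
    rw [Finset.sum_congr rfl fun w _ => h2 w]
    simp
  rw [Finset.sum_congr rfl fun a _ => h1 a]
  simp

lemma mkCh_P (t : ℕ) (x z : X) : (mkCh P M hS).P t x z = (P ^ t) x z := by
  unfold Ch.P
  rw [mkCh_K]

lemma mkCh_Occ (h : ℕ) (x x' : X) (y : Y) : (mkCh P M hS).Occ h x x' y = usk P (M y) h x x' := by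
  unfold Ch.Occ usk
  rw [Matrix.sum_apply]
  refine Finset.sum_congr rfl fun t _ => ?_
  rw [Matrix.mul_apply]
  simp_rw [Matrix.mul_apply (M := P ^ t)]
  have := mkCh_sum_use P M hS y (fun a b => (P ^ t) x a * (P ^ (h - 1 - t)) b x')
  simp_rw [mkCh_P]
  calc ∑ e, (P ^ t) x ((mkCh P M hS).src e) * (mkCh P M hS).use y e *
        (P ^ (h - 1 - t)) ((mkCh P M hS).tgt e) x'
      = ∑ e : X × X × Option Y, ((P ^ t) x e.1 * (P ^ (h - 1 - t)) e.2.1 x') *
          (mkCh P M hS).use y e := by
        refine Finset.sum_congr rfl fun e _ => ?_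
        simp only [mkCh]
        ring
    _ = _ := this
    _ = _ := by
        rw [Finset.sum_comm]
        refine Finset.sum_congr rfl fun b _ => ?_
        rw [Finset.sum_mul]
        refine Finset.sum_congr rfl fun a _ => ?_
        ring

lemma mkCh_up : (mkCh P M hS).UseLe n κ := by
  intro x y
  refine le_trans (le_of_eq ?_) (hS.up x y)
  refine Finset.sum_congr rfl fun t _ => ?_
  simp_rw [mkCh_P]
  have := mkCh_sum_use P M hS y (fun a _ => (P ^ t) x a)
  calc ∑ e, (P ^ t) x ((mkCh P M hS).src e) * (mkCh P M hS).use y e
      = ∑ e : X × X × Option Y, (P ^ t) x e.1 * (mkCh P M hS).use y e := rfl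
    _ = _ := this
    _ = _ := by
        rw [Finset.sum_comm]
        refine Finset.sum_congr rfl fun b _ => ?_
        rw [Matrix.mul_apply]

lemma mkCh_um : (mkCh P M hS).rev.UseLe n κ := by
  intro x y
  refine le_trans (le_of_eq ?_) (hS.um x y)
  refine Finset.sum_congr rfl fun t _ => ?_
  simp_rw [Ch.rev_P, mkCh_P]
  have := mkCh_sum_use P M hS y (fun _ b => (P ^ t) b x)
  calc ∑ e, (P ^ t) ((mkCh P M hS).rev.src e) x * (mkCh P M hS).rev.use y e
      = ∑ e : X × X × Option Y, (P ^ t) e.2.1 x * (mkCh P M hS).use y e := rfl
    _ = _ := this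
    _ = _ := by
        refine Finset.sum_congr rfl fun a _ => ?_
        rw [Matrix.mul_apply]
        refine Finset.sum_congr rfl fun b _ => ?_
        ring

end chain

end Pool.Agent.H90.SPW
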