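import Pool.Agent.H90.SPW.Link

/-!
# Frozen letters and the choice of the constants
-/

set_option autoImplicit false

open Finset
open scoped BigOperators Classical

namespace Pool.Agent.H90.SPW

open Pool.Agent.H67.AT

lemma Ch.OccA_nonneg {X E Y : Type} [Fintype X] [Fintype E] (c : Ch X E Y) (Lam : ℝ) (h : ℕ)
    (x x' : X) (y : Y) : 0 ≤ c.OccA Lam h x x' y := by
  unfold Ch.OccA
  refine Finset.sum_nonneg fun t _ => Finset.sum_nonneg fun e _ => ?_
  split
  · exact mul_nonneg (mul_nonneg (c.P_nonneg _ _ _) (c.use_nonneg _ _)) (c.P_nonneg _ _ _)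
  · exact le_rfl

lemma Ch.UseLe.mono {X E Y : Type} [Fintype X] [Fintype E] {c : Ch X E Y} {n m : ℕ} {kap : ℝ}
    (h : c.UseLe n kap) (hm : m ≤ n) : c.UseLe m kap := by
  intro x y
  refine le_trans (Finset.sum_le_sum_of_subset_of_nonneg (Finset.range_mono hm) ?_) (h x y)
  intro t _ _
  exact Finset.sum_nonneg fun e _ => mul_nonneg (c.P_nonneg _ _ _) (c.use_nonneg _ _)

/-- the frozen letters of a block have few uses in total -/
lemma frozen_sum (hNA : T_NA) (hBWB : T_BWB) (hE2 : T_E2) {X E Y : Type} [Fintype X] [Fintype E]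
    [Fintype Y] (c : Ch X E Y) (Lam eta zeta kap b : ℝ) (n h : ℕ) (hLam : Real.exp 1 < Lam)
    (hk : 0 < kap) (hb : 0 ≤ b) (hU : c.rev.UseLe n kap) (hh : h ≤ n) (heta : 0 < eta)
    (hcond : Lam * (b + tau0 kap b / eta) ≤ zeta / 2) (x x' : X) (hP : eta ≤ c.P h x x') :
    ∑ y, (if zeta * c.P h x x' ≤ c.Occ h x x' y then c.Occ h x x' y else 0) ≤
      2 * (-(c.P h x x' * Real.log (c.P h x x')) / (Real.log Lam - 1)) := by
  have hL0 : 0 < Lam := lt_trans (Real.exp_pos 1) hLam
  have hL1 : 0 < Real.log Lam - 1 := by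
    have := (Real.lt_log_iff_exp_lt hL0).2 hLam
    linarith
  have hPp : 0 < c.P h x x' := lt_of_lt_of_le heta hP
  have ht0 : 0 ≤ tau0 kap b := by unfold tau0; positivity
  have hE := hE2 X E Y c Lam hLam.le h x x'
  have hE' : ∑ y, c.OccA Lam h x x' y ≤
      -(c.P h x x' * Real.log (c.P h x x')) / (Real.log Lam - 1) := by
    rw [le_div_iff₀ hL1]
    linarith [mul_comm (∑ y, c.OccA Lam h x x' y) (Real.log Lam - 1)]
  refine le_trans ?_ (mul_le_mul_of_nonneg_left hE' (by norm_num : (0:ℝ) ≤ 2))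
  rw [Finset.mul_sum]
  refine Finset.sum_le_sum fun y _ => ?_
  split_ifs with hz
  · have h1 := hNA X E Y c Lam hL0.le h x x' y
    have h2 : c.BW h x x' y ≤ b * c.P h x x' + tau0 kap b := by
      have := hBWB X E Y c n kap hk hU h hh x x' y b hb
      simpa [tau0] using this
    have h3 : Lam * c.BW h x x' y ≤ Lam * (b * c.P h x x' + tau0 kap b) :=
      mul_le_mul_of_nonneg_left h2 hL0.le
    have h4 : tau0 kap b ≤ tau0 kap b / eta * c.P h x x' := by
      rw [div_mul_eq_mul_div, le_div_iff₀ heta]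
      exact mul_le_mul_of_nonneg_left hP ht0
    have h5 : Lam * (b * c.P h x x' + tau0 kap b) ≤ zeta / 2 * c.P h x x' := by
      calc Lam * (b * c.P h x x' + tau0 kap b)
          ≤ Lam * (b * c.P h x x' + tau0 kap b / eta * c.P h x x') := by
            apply mul_le_mul_of_nonneg_left _ hL0.le
            linarith
        _ = (Lam * (b + tau0 kap b / eta)) * c.P h x x' := by ring
        _ ≤ zeta / 2 * c.P h x x' := mul_le_mul_of_nonneg_right hcond hPp.le
    linarith
  · have := c.OccA_nonneg Lam h x x' y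
    linarith

/-- the logarithms of powers of `k` against `log (k ^ 4) - 1` -/
lemma log_bound (k : ℝ) (hk : 2 ≤ k) (m : ℕ) :
    (m : ℝ) * Real.log k / (Real.log (k ^ 4) - 1) ≤ m ∧ 0 < Real.log (k ^ 4) - 1 ∧
      1 / 3 ≤ Real.log k := by
  have h1 : Real.log 2 ≤ Real.log k := Real.log_le_log (by norm_num) hk
  have h2 : (0.69 : ℝ) < Real.log 2 := lt_trans (by norm_num) Real.log_two_gt_d9
  have h3 : Real.log (k ^ 4) = 4 * Real.log k := by
    rw [Real.log_pow]; norm_num
  have h4 : 0 < Real.log (k ^ 4) - 1 := by rw [h3]; linarith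
  refine ⟨?_, h4, by linarith⟩
  rw [div_le_iff₀ h4]
  apply mul_le_mul_of_nonneg_left _ (Nat.cast_nonneg m)
  rw [h3]; linarith

/-- a negative power against the reciprocal -/
lemma inv_pow_le (k : ℝ) (hk : 1 ≤ k) (m : ℕ) (hm : 1 ≤ m) : 1 / k ^ m ≤ 1 / k := by
  apply one_div_le_one_div_of_le (by linarith)
  calc k = k ^ 1 := (pow_one k).symm
    _ ≤ k ^ m := pow_le_pow_right₀ hk hm

end Pool.Agent.H90.SPW
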