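import Pool.Agent.H90.SPW.LinkA

/-!
# The numerical conditions
-/

set_option autoImplicit false

open Finset
open scoped BigOperators

namespace Pool.Agent.H90.SPW

lemma tau0_eq (k : ℝ) (hk : 0 < k) :
    tau0 (1 / k ^ 20) (4 * k * (1 / k ^ 20)) = 8 * (1 / k ^ 20) * Real.exp (-k) := by
  unfold tau0
  have h : 4 * k * (1 / k ^ 20) / (4 * (1 / k ^ 20)) = k := by
    field_simp
  rw [h]

lemma num_A (k β : ℝ) (m : ℕ) (hk : 16 ≤ k) (hβ : 0 < β) (hkβ : 24 / β ≤ k)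
    (he : k ^ m * Real.exp (-k) ≤ 1) (eta : ℝ) (heta : (1 / k) ^ m ≤ eta) :
    k ^ 4 * (4 * k * (1 / k ^ 20) + tau0 (1 / k ^ 20) (4 * k * (1 / k ^ 20)) / eta) ≤ β / 2 := by
  have hk0 : 0 < k := by linarith
  have hk1 : 1 ≤ k := by linarith
  rw [tau0_eq k hk0]
  have heta0 : 0 < eta := lt_of_lt_of_le (by positivity) heta
  have h1 : Real.exp (-k) / eta ≤ 1 := by
    rw [div_le_one heta0]
    refine le_trans ?_ heta
    rw [one_div_pow, le_div_iff₀ (by positivity)]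
    linarith [mul_comm (k ^ m) (Real.exp (-k))]
  have h2 : 8 * (1 / k ^ 20) * Real.exp (-k) / eta ≤ 8 * (1 / k ^ 20) := by
    calc 8 * (1 / k ^ 20) * Real.exp (-k) / eta = 8 * (1 / k ^ 20) * (Real.exp (-k) / eta) := by ring
      _ ≤ 8 * (1 / k ^ 20) * 1 := mul_le_mul_of_nonneg_left h1 (by positivity)
      _ = _ := mul_one _
  have h3 : k ^ 4 * (4 * k * (1 / k ^ 20) + 8 * (1 / k ^ 20) * Real.exp (-k) / eta) ≤
      k ^ 4 * (12 * k * (1 / k ^ 20)) := by
    apply mul_le_mul_of_nonneg_left _ (by positivity)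
    have : 8 * (1 / k ^ 20) ≤ 8 * k * (1 / k ^ 20) := by
      apply mul_le_mul_of_nonneg_right _ (by positivity)
      linarith
    linarith
  have h4 : k ^ 4 * (12 * k * (1 / k ^ 20)) = 12 * (1 / k ^ 15) := by
    field_simp
  have h5 : 12 * (1 / k ^ 15) ≤ 12 * (1 / k) :=
    mul_le_mul_of_nonneg_left (inv_pow_le k hk1 15 (by norm_num)) (by norm_num)
  have h6 : 12 * (1 / k) ≤ β / 2 := by
    rw [div_le_iff₀ hβ] at hkβ
    rw [mul_one_div, div_le_iff₀ hk0]
    linarith [mul_comm β k]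
  linarith

lemma num_B (k β : ℝ) (L D m l j : ℕ) (hk : 16 ≤ k) (hβ : 0 < β) (hβ1 : β ≤ 1)
    (hG : 64 * (1 / (β ^ 2 / 128)) ^ (L + 1) * (4 * m + 8) ≤ k)
    (he : k ^ (L + D + m) * Real.exp (-k) ≤ 1) (hl : l < L) (hj : j ≤ m) (N : ℝ) (hN0 : 0 ≤ N)
    (hN : N ≤ k ^ D) :
    (1 / (β ^ 2 / 128) ^ (l + 1) + 4 / β ^ 2) * ((β ^ 2 / 128) ^ (l + 2) + 2 * k ^ 4 *
      (4 * k * (1 / k ^ 20) * (k * (Real.log (1 / (1 / k) ^ j) / (Real.log (k ^ 4) - 1))) +
      tau0 (1 / k ^ 20) (4 * k * (1 / k ^ 20)) * (k * k ^ l * N) / (1 / k) ^ j)) ≤ 1 / 8 := by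
  have hk0 : 0 < k := by linarith
  have hk1 : 1 ≤ k := by linarith
  rw [tau0_eq k hk0]
  set q : ℝ := β ^ 2 / 128 with hq
  have hβ2 : β ^ 2 ≤ 1 := by nlinarith
  have hq0 : 0 < q := by positivity
  have hq1 : q ≤ 1 / 128 := by rw [hq]; linarith
  have hq2 : q ≤ 1 := by linarith
  have h4 : 4 / β ^ 2 = (1 / 32) * (1 / q) := by
    rw [hq]; field_simp; norm_num
  have h1q : 1 ≤ 1 / q := by rw [le_div_iff₀ hq0]; linarith
  set Z : ℝ := 1 / q ^ (l + 1) + 4 / β ^ 2 with hZ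
  have hZ0 : 0 ≤ Z := by positivity
  set G : ℝ := (1 / q) ^ (L + 1) with hGd
  have hG1 : 1 ≤ G := one_le_pow₀ h1q
  have hZG : Z ≤ 2 * G := by
    have a1 : 1 / q ^ (l + 1) ≤ G := by
      rw [← one_div_pow]
      exact pow_le_pow_right₀ h1q (by omega)
    have a2 : 4 / β ^ 2 ≤ G := by
      rw [h4]
      have : 1 / q ≤ G := by
        calc 1 / q = (1 / q) ^ 1 := (pow_one _).symm
          _ ≤ G := pow_le_pow_right₀ h1q (by omega)
      have h0 : 0 ≤ 1 / q := by positivity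
      linarith
    linarith
  have hZc : Z * q ^ (l + 2) ≤ 5 / 128 := by
    have a1 : 1 / q ^ (l + 1) * q ^ (l + 2) = q := by
      rw [pow_succ q (l + 1)]
      field_simp
    have a2 : 4 / β ^ 2 * q ^ (l + 2) ≤ 1 / 32 := by
      rw [h4]
      have : (1 / 32) * (1 / q) * q ^ (l + 2) = (1 / 32) * q ^ (l + 1) := by
        rw [pow_succ q (l + 1)]
        field_simp
      rw [this]
      have : q ^ (l + 1) ≤ 1 := pow_le_one₀ hq0.le hq2
      linarith
    rw [hZ, add_mul, a1]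
    linarith
  set T : ℝ := 4 * k * (1 / k ^ 20) * (k * (Real.log (1 / (1 / k) ^ j) / (Real.log (k ^ 4) - 1))) +
      8 * (1 / k ^ 20) * Real.exp (-k) * (k * k ^ l * N) / (1 / k) ^ j with hT
  have hlog : Real.log (1 / (1 / k) ^ j) / (Real.log (k ^ 4) - 1) ≤ m := by
    have a1 : Real.log (1 / (1 / k) ^ j) = j * Real.log k := by
      rw [one_div_pow, one_div_one_div, Real.log_pow]
    rw [a1]
    refine le_trans (log_bound k (by linarith) j).1 ?_
    exact_mod_cast hj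
  have hT1 : 4 * k * (1 / k ^ 20) * (k * (Real.log (1 / (1 / k) ^ j) / (Real.log (k ^ 4) - 1))) ≤
      4 * m * (k ^ 2 * (1 / k ^ 20)) := by
    calc 4 * k * (1 / k ^ 20) * (k * (Real.log (1 / (1 / k) ^ j) / (Real.log (k ^ 4) - 1)))
        ≤ 4 * k * (1 / k ^ 20) * (k * m) := by
          apply mul_le_mul_of_nonneg_left _ (by positivity)
          exact mul_le_mul_of_nonneg_left hlog hk0.le
      _ = _ := by ring
  have hT2 : 8 * (1 / k ^ 20) * Real.exp (-k) * (k * k ^ l * N) / (1 / k) ^ j ≤ 8 * (1 / k ^ 20) := by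
    have a1 : (k * k ^ l * N) / (1 / k) ^ j ≤ k ^ (L + D + m) := by
      rw [one_div_pow, div_div_eq_mul_div, div_one]
      calc k * k ^ l * N * k ^ j ≤ k ^ L * k ^ D * k ^ m := by
            have b1 : k * k ^ l ≤ k ^ L := by
              rw [← pow_succ']
              exact pow_le_pow_right₀ hk1 (by omega)
            have b2 : k ^ j ≤ k ^ m := pow_le_pow_right₀ hk1 hj
            have b3 : k * k ^ l * N ≤ k ^ L * k ^ D := mul_le_mul b1 hN hN0 (by positivity)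
            exact mul_le_mul b3 b2 (by positivity) (by positivity)
        _ = _ := by rw [← pow_add, ← pow_add]
    calc 8 * (1 / k ^ 20) * Real.exp (-k) * (k * k ^ l * N) / (1 / k) ^ j
        = 8 * (1 / k ^ 20) * (Real.exp (-k) * ((k * k ^ l * N) / (1 / k) ^ j)) := by ring
      _ ≤ 8 * (1 / k ^ 20) * (Real.exp (-k) * k ^ (L + D + m)) := by
          apply mul_le_mul_of_nonneg_left _ (by positivity)
          exact mul_le_mul_of_nonneg_left a1 (Real.exp_pos _).le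
      _ ≤ 8 * (1 / k ^ 20) * 1 := by
          apply mul_le_mul_of_nonneg_left _ (by positivity)
          linarith [mul_comm (Real.exp (-k)) (k ^ (L + D + m))]
      _ = _ := mul_one _
  have hT3 : T ≤ (4 * m + 8) * (k ^ 2 * (1 / k ^ 20)) := by
    have a1 : (1 / k ^ 20) ≤ k ^ 2 * (1 / k ^ 20) := by
      apply le_mul_of_one_le_left (by positivity)
      exact one_le_pow₀ hk1
    rw [hT]
    linarith
  have hT4 : 2 * k ^ 4 * T ≤ 2 * (4 * m + 8) * (1 / k) := by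
    calc 2 * k ^ 4 * T ≤ 2 * k ^ 4 * ((4 * m + 8) * (k ^ 2 * (1 / k ^ 20))) :=
          mul_le_mul_of_nonneg_left hT3 (by positivity)
      _ = 2 * (4 * m + 8) * (1 / k ^ 14) := by field_simp
      _ ≤ _ := mul_le_mul_of_nonneg_left (inv_pow_le k hk1 14 (by norm_num)) (by positivity)
  have hT5 : 0 ≤ 2 * (4 * (m : ℝ) + 8) * (1 / k) := by positivity
  have hfin : Z * (2 * k ^ 4 * T) ≤ 1 / 16 := by
    calc Z * (2 * k ^ 4 * T) ≤ Z * (2 * (4 * m + 8) * (1 / k)) := mul_le_mul_of_nonneg_left hT4 hZ0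
      _ ≤ 2 * G * (2 * (4 * m + 8) * (1 / k)) := mul_le_mul_of_nonneg_right hZG hT5
      _ = (64 * G * (4 * m + 8)) * (1 / k) / 16 := by ring
      _ ≤ k * (1 / k) / 16 := by
          apply div_le_div_of_nonneg_right _ (by norm_num)
          exact mul_le_mul_of_nonneg_right hG (by positivity)
      _ = 1 / 16 := by
          rw [mul_one_div, div_self hk0.ne']
  calc Z * (q ^ (l + 2) + 2 * k ^ 4 * T) = Z * q ^ (l + 2) + Z * (2 * k ^ 4 * T) := by ring
    _ ≤ 5 / 128 + 1 / 16 := add_le_add hZc hfin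
    _ ≤ 1 / 8 := by norm_num

lemma num_C (k β : ℝ) (L D : ℕ) (hk : 16 ≤ k) (hβ : 0 < β)
    (hG : 16 * (L + D + 4) * (1 / (β ^ 2 / 128)) ^ (L + 1) ≤ k) (N : ℝ) (hN1 : 1 ≤ N)
    (hN : N ≤ k ^ D) :
    (1 / k) ^ (D + 2) * N + 1 / k ^ 20 *
      ((Real.log ((k ^ L + 1) * N) + 1) / (Real.log (k ^ 4) - 1)) / (β ^ 2 / 128) ^ (L + 1) ≤
        1 / 8 := by
  have hk0 : 0 < k := by linarith
  have hk1 : 1 ≤ k := by linarith
  obtain ⟨-, hlog0, hlog1⟩ := log_bound k (by linarith) 0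
  have h1 : (1 / k) ^ (D + 2) * N ≤ 1 / 16 := by
    calc (1 / k) ^ (D + 2) * N ≤ (1 / k) ^ (D + 2) * k ^ D :=
          mul_le_mul_of_nonneg_left hN (by positivity)
      _ = 1 / k ^ 2 := by
          rw [one_div_pow, pow_add]
          field_simp
      _ ≤ 1 / k := inv_pow_le k hk1 2 (by norm_num)
      _ ≤ 1 / 16 := one_div_le_one_div_of_le (by norm_num) hk
  have h2 : Real.log ((k ^ L + 1) * N) + 1 ≤ ((L + D + 4 : ℕ) : ℝ) * Real.log k := by
    have a1 : (k ^ L + 1) * N ≤ k ^ (L + D + 1) := by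
      have b1 : 1 ≤ k ^ L := one_le_pow₀ hk1
      calc (k ^ L + 1) * N ≤ (k * k ^ L) * k ^ D := by
            apply mul_le_mul _ hN (by linarith) (by positivity)
            nlinarith
        _ = _ := by rw [← pow_succ', ← pow_add]; congr 1; omega
    have a2 : Real.log ((k ^ L + 1) * N) ≤ ((L + D + 1 : ℕ) : ℝ) * Real.log k := by
      rw [← Real.log_pow]
      apply Real.log_le_log _ a1
      positivity
    push_cast at a2 ⊢
    linarith
  have h3 : (Real.log ((k ^ L + 1) * N) + 1) / (Real.log (k ^ 4) - 1) ≤ ((L + D + 4 : ℕ) : ℝ) :=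
    le_trans (div_le_div_of_nonneg_right h2 hlog0.le) (log_bound k (by linarith) (L + D + 4)).1
  set q : ℝ := β ^ 2 / 128 with hq
  have hq0 : 0 < q := by positivity
  have h4 : 1 / k ^ 20 * ((Real.log ((k ^ L + 1) * N) + 1) / (Real.log (k ^ 4) - 1)) / q ^ (L + 1) ≤
      1 / 16 := by
    calc 1 / k ^ 20 * ((Real.log ((k ^ L + 1) * N) + 1) / (Real.log (k ^ 4) - 1)) / q ^ (L + 1)
        ≤ 1 / k * ((L + D + 4 : ℕ) : ℝ) / q ^ (L + 1) := by
          apply div_le_div_of_nonneg_right _ (by positivity)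
          have b0 : 0 ≤ ((L + D + 4 : ℕ) : ℝ) := Nat.cast_nonneg _
          calc 1 / k ^ 20 * ((Real.log ((k ^ L + 1) * N) + 1) / (Real.log (k ^ 4) - 1))
              ≤ 1 / k ^ 20 * ((L + D + 4 : ℕ) : ℝ) := mul_le_mul_of_nonneg_left h3 (by positivity)
            _ ≤ _ := mul_le_mul_of_nonneg_right (inv_pow_le k hk1 20 (by norm_num)) b0
      _ = (16 * (L + D + 4) * (1 / q) ^ (L + 1)) * (1 / k) / 16 := by
          push_cast
          rw [one_div_pow]
          ring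
      _ ≤ k * (1 / k) / 16 := by
          apply div_le_div_of_nonneg_right _ (by norm_num)
          exact mul_le_mul_of_nonneg_right hG (by positivity)
      _ = 1 / 16 := by rw [mul_one_div, div_self hk0.ne']
  linarith

/-- large `k` -/
lemma exists_k0 (R : ℝ) (m : ℕ) : ∃ k₀ : ℕ, ∀ k ≥ k₀, R ≤ (k : ℝ) ∧ 16 ≤ k ∧
    (k : ℝ) ^ m * Real.exp (-(k : ℝ)) ≤ 1 := by
  have h1 : ∀ᶠ k : ℕ in Filter.atTop, (k : ℝ) ^ m * Real.exp (-(k : ℝ)) ≤ 1 := by
    have h := (Real.tendsto_pow_mul_exp_neg_atTop_nhds_zero m).comp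
      (tendsto_natCast_atTop_atTop (R := ℝ))
    have := h.eventually (ge_mem_nhds (zero_lt_one))
    simpa using this
  have h2 : ∀ᶠ k : ℕ in Filter.atTop, R ≤ (k : ℝ) :=
    (tendsto_natCast_atTop_atTop (R := ℝ)).eventually_ge_atTop R
  obtain ⟨k₀, hk⟩ := Filter.eventually_atTop.1 ((h1.and h2).and (Filter.eventually_ge_atTop 16))
  exact ⟨k₀, fun k h => ⟨(hk k h).1.2, (hk k h).2, (hk k h).1.1⟩⟩

end Pool.Agent.H90.SPW
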