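import Pool.Agent.H21.SPW.BWB
import Pool.Agent.H60.SPW.E2
import Pool.Agent.H69.SPW.EM
import Pool.Agent.H21.SPW.IL
import Pool.Agent.H69.SPW.LSI
import Pool.Agent.H10.SPW.ML
import Pool.Agent.H79.SPW.NA
import Pool.Agent.H79.SPW.P2
import Pool.Agent.H1.SPW.PI
import Pool.Agent.H1.SPW.PJ
import Pool.Agent.H1.SPW.RA
import Pool.Agent.H86.SPW.RB
import Pool.Agent.H89.SPW.RC
import Pool.Agent.H79.SPW.RD
import Pool.Agent.H96.SPA.REC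
import Pool.Agent.H86.SPW.RT
import Pool.Agent.H17.SPW.TOP

/-!
# Part A (MP_81fcf0_co) without hypotheses
-/

set_option autoImplicit false

namespace Pool.Agent.H90.SPW

theorem outE2 : T_E2 := Pool.Agent.H60.SPW.E2.pf_E2 Pool.Agent.H69.SPW.pf_LSI

theorem outEM : T_EM := Pool.Agent.H69.SPW.pf_EM Pool.Agent.H69.SPW.pf_LSI

theorem outREC : T_REC := Pool.Agent.H96.SPA.pf_REC Pool.Agent.H86.SPW.pf_RT Pool.Agent.H1.SPW.pf_RA
  Pool.Agent.H86.SPW.pf_RB Pool.Agent.H89.SPW.pf_RC Pool.Agent.H79.SPW.pf_RD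
  Pool.Agent.H21.SPW.pf_BWB outE2 Pool.Agent.H1.SPW.pf_PJ

theorem outIL : T_IL := Pool.Agent.H21.SPW.pf_IL outREC Pool.Agent.H79.SPW.pf_NA
  Pool.Agent.H21.SPW.pf_BWB Pool.Agent.H1.SPW.pf_PI Pool.Agent.H10.SPW.pf_ML

theorem outTOP : T_TOP := Pool.Agent.H17.SPW.pf_TOP outEM Pool.Agent.H79.SPW.pf_P2

end Pool.Agent.H90.SPW
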