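import Pool.Agent.H90.SPW.Defs

/-!
# Part A (MP_81fcf0_co): targets. Amplified edges in bridges, pairs, good blocks.
-/

set_option autoImplicit false

open Finset
open scoped BigOperators Classical

namespace Pool.Agent.H90.SPW

/-- LSI: the one step entropy inequality at one target. `E'` = the edges into the target, `w` = prior
weights of sum at most one, `u` = values at the sources. A letter is amplified if its share is at least
`Lam` times its prior weight. -/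
def T_LSI : Prop :=
  ∀ (E' Y : Type) [Fintype E'] [Fintype Y] (lt : E' → Option Y) (w u : E' → ℝ) (Lam : ℝ),
    (∀ e, 0 ≤ w e) → (∀ e, 0 ≤ u e) → ∑ e, w e ≤ 1 → Real.exp 1 ≤ Lam →
    (Real.log Lam - 1) * ∑ y, (if Lam * (∑ e, if lt e = some y then w e else 0) * (∑ e, w e * u e) ≤
          ∑ e, (if lt e = some y then w e * u e else 0)
        then ∑ e, (if lt e = some y then w e * u e else 0) else 0) ≤
      ∑ e, w e * u e * (Real.log (u e) - Real.log (∑ e, w e * u e))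

/-- E2: number of amplified edges in a bridge -/
def T_E2 : Prop :=
  ∀ (X E Y : Type) [Fintype X] [Fintype E] [Fintype Y] (c : Ch X E Y) (Lam : ℝ), Real.exp 1 ≤ Lam →
    ∀ (h : ℕ) (x x' : X),
      (Real.log Lam - 1) * ∑ y, c.OccA Lam h x x' y ≤ -(c.P h x x' * Real.log (c.P h x x'))

/-- EM: number of amplified edges from a state, with killing -/
def T_EM : Prop :=
  ∀ (X E Y : Type) [Fintype X] [Fintype E] [Fintype Y] (c : Ch X E Y) (Lam : ℝ), Real.exp 1 ≤ Lam →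
    ∀ (h : ℕ) (x : X),
      (Real.log Lam - 1) * ∑ y, ∑ t ∈ range h, ∑ e, (if c.Amp Lam t x (c.tgt e) y then
          c.P t x (c.src e) * c.use y e else 0) ≤
        Real.log ((h + 1) * Fintype.card X) + 1

/-- PJ: entropy of a child of a bridge -/
def T_PJ : Prop :=
  ∀ (X E Y : Type) [Fintype X] [Fintype E] (c : Ch X E Y) (i h j : ℕ) (x x' : X),
    ∑ a, ∑ b, c.P i x a * (-(c.P h a b * Real.log (c.P h a b))) * c.P j b x' ≤
      -(c.P (i + h + j) x x' * Real.log (c.P (i + h + j) x x'))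

/-- PI: small children of a bridge are improbable -/
def T_PI : Prop :=
  ∀ (X E Y : Type) [Fintype X] [Fintype E] (c : Ch X E Y) (i h j : ℕ) (x x' : X) (eta : ℝ), 0 ≤ eta →
    ∑ a, ∑ b, (if c.P h a b < eta then c.P i x a * c.P h a b * c.P j b x' else 0) ≤ eta

/-- BWB: the sum of the prior weights of a letter along a path is at most `b` up to a tiny weight -/
def T_BWB : Prop :=
  ∀ (X E Y : Type) [Fintype X] [Fintype E] (c : Ch X E Y) (n : ℕ) (kap : ℝ), 0 < kap →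
    c.rev.UseLe n kap → ∀ t ≤ n, ∀ (x z : X) (y : Y) (b : ℝ), 0 ≤ b →
      c.BW t x z y ≤ b * c.P t x z + 8 * kap * Real.exp (-(b / (4 * kap)))

/-- NA: the uses which are not amplified -/
def T_NA : Prop :=
  ∀ (X E Y : Type) [Fintype X] [Fintype E] (c : Ch X E Y) (Lam : ℝ), 0 ≤ Lam →
    ∀ (h : ℕ) (x x' : X) (y : Y), c.Occ h x x' y ≤ c.OccA Lam h x x' y + Lam * c.BW h x x' y

/-- P2: pairs from a state -/
def T_P2 : Prop :=
  ∀ (X E Y : Type) [Fintype X] [Fintype E] [Fintype Y] (c : Ch X E Y) (Lam : ℝ) (h : ℕ) (kap : ℝ),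
    0 ≤ kap → c.UseLe h kap → ∀ x : X,
      ∑ x', c.DE Lam h x x' ≤ kap * ∑ y, ∑ t ∈ range h, ∑ e, (if c.Amp Lam t x (c.tgt e) y then
          c.P t x (c.src e) * c.use y e else 0)

/-- weight of the second member of a pair: the edge `e` number `t` with the letter `y`, amplified towards
the end of its block of length `h'` (blocks number `0 .. k-1`), then on to `x'` -/
noncomputable def Ch.SM {X E Y : Type} [Fintype X] [Fintype E] (c : Ch X E Y) (Lam : ℝ)
    (k h' : ℕ) (x' : X) (t : ℕ) (e : E) (y : Y) : ℝ :=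
  c.use y e * ∑ d, (if c.rev.Amp Lam (h' - 1 - t % h') d (c.src e) y then
    c.P (h' - 1 - t % h') (c.tgt e) d else 0) * c.P ((k - 1 - t / h') * h') d x'

/-- the pairs of `TP`, written with `SM` for both members -/
noncomputable def Ch.TQ {X E Y : Type} [Fintype X] [Fintype E] [Fintype Y] (c : Ch X E Y) (Lam : ℝ)
    (k h' : ℕ) (x x' : X) : ℝ :=
  ∑ y, ∑ t₁ ∈ range (k * h'), ∑ t₂ ∈ range (k * h'), if t₁ < t₂ then ∑ e₁, ∑ e₂,
    c.rev.SM Lam k h' x (k * h' - 1 - t₁) e₁ y * c.P (t₂ - t₁ - 1) (c.tgt e₁) (c.src e₂) *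
      c.SM Lam k h' x' t₂ e₂ y else 0

/-- the pairs whose first member is not amplified from `x` -/
noncomputable def Ch.I1 {X E Y : Type} [Fintype X] [Fintype E] [Fintype Y] (c : Ch X E Y) (Lam : ℝ)
    (k h' : ℕ) (x x' : X) : ℝ :=
  ∑ y, ∑ t₁ ∈ range (k * h'), ∑ t₂ ∈ range (k * h'), if t₁ < t₂ then ∑ e₁, ∑ e₂,
    (if c.Amp Lam t₁ x (c.tgt e₁) y then 0 else
      c.P t₁ x (c.src e₁) * c.use y e₁ * c.P (t₂ - t₁ - 1) (c.tgt e₁) (c.src e₂)) *
      c.SM Lam k h' x' t₂ e₂ y else 0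

/-- RT -/
def T_RT : Prop :=
  ∀ (X E Y : Type) [Fintype X] [Fintype E] [Fintype Y] (c : Ch X E Y) (Lam : ℝ) (k h' : ℕ), 0 < h' →
    ∀ x x' : X, c.TP Lam k h' x x' ≤ c.TQ Lam k h' x x'

/-- RA -/
def T_RA : Prop :=
  ∀ (X E Y : Type) [Fintype X] [Fintype E] [Fintype Y] (c : Ch X E Y) (Lam : ℝ) (k h' : ℕ), 0 < h' →
    ∀ x x' : X, c.TQ Lam k h' x x' ≤
      c.DE Lam (k * h') x x' + c.I1 Lam k h' x x' + c.rev.I1 Lam k h' x' x

/-- RB -/
def T_RB : Prop :=
  ∀ (X E Y : Type) [Fintype X] [Fintype E] [Fintype Y] (c : Ch X E Y) (Lam : ℝ), 0 ≤ Lam →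
    ∀ (k h' : ℕ) (x x' : X), c.I1 Lam k h' x x' ≤
      Lam * ∑ y, ∑ t ∈ range (k * h'), ∑ e, c.BW t x (c.src e) y * c.SM Lam k h' x' t e y

/-- RC -/
def T_RC : Prop :=
  ∀ (X E Y : Type) [Fintype X] [Fintype E] [Fintype Y] (c : Ch X E Y) (Lam : ℝ) (k h' : ℕ), 0 < h' →
    ∀ x x' : X,
      ∑ y, ∑ t ∈ range (k * h'), ∑ e, c.P t x (c.src e) * c.SM Lam k h' x' t e y =
        ∑ i ∈ range k, ∑ a, ∑ b, c.P (i * h') x a * (∑ y, c.rev.OccA Lam h' b a y) *
          c.P ((k - 1 - i) * h') b x'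

/-- RD -/
def T_RD : Prop :=
  ∀ (X E Y : Type) [Fintype X] [Fintype E] [Fintype Y] (c : Ch X E Y) (Lam : ℝ) (k h' : ℕ) (x' : X),
    ∑ y, ∑ t ∈ range (k * h'), ∑ e, c.SM Lam k h' x' t e y ≤ (k * h' : ℝ) * Fintype.card X

/-- REC: one level -/
def T_REC : Prop :=
  ∀ (X E Y : Type) [Fintype X] [Fintype E] [Fintype Y] (c : Ch X E Y) (Lam : ℝ) (k h' : ℕ) (kap b : ℝ),
    Real.exp 1 < Lam → 0 < h' → 0 < kap → 0 ≤ b → c.UseLe (k * h') kap → c.rev.UseLe (k * h') kap →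
    ∀ x x' : X, c.TP Lam k h' x x' ≤ c.DE Lam (k * h') x x' +
      2 * Lam * (b * (k * (-(c.P (k * h') x x' * Real.log (c.P (k * h') x x')) / (Real.log Lam - 1))) +
        8 * kap * Real.exp (-(b / (4 * kap))) * ((k * h' : ℝ) * Fintype.card X))

/-- weight of a skeleton -/
noncomputable def skW {X : Type} (M : Matrix X X ℝ) (k : ℕ) (s : Fin (k + 1) → X) : ℝ :=
  ∏ i : Fin k, M (s i.castSucc) (s i.succ)

/-- ML: marginals of skeletons -/
def T_ML : Prop :=
  ∀ (X : Type) [Fintype X] (M : Matrix X X ℝ) (k : ℕ) (x x' : X),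
    (∑ s : Fin (k + 1) → X, (if s 0 = x ∧ s (Fin.last k) = x' then skW M k s else 0) = (M ^ k) x x') ∧
    (∀ (i : Fin k) (F : X → X → ℝ),
      ∑ s : Fin (k + 1) → X, (if s 0 = x ∧ s (Fin.last k) = x' then
          skW M k s * F (s i.castSucc) (s i.succ) else 0) =
        ∑ a, ∑ b, (M ^ (i : ℕ)) x a * (M a b * F a b) * (M ^ (k - 1 - (i : ℕ))) b x') ∧
    (∀ (i j : Fin k), i < j → ∀ (F G : X → X → ℝ),
      ∑ s : Fin (k + 1) → X, (if s 0 = x ∧ s (Fin.last k) = x' then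
          skW M k s * (F (s i.castSucc) (s i.succ) * G (s j.castSucc) (s j.succ)) else 0) =
        ∑ a, ∑ b, ∑ u, ∑ v, (M ^ (i : ℕ)) x a * (M a b * F a b) * (M ^ ((j : ℕ) - i - 1)) b u *
          (M u v * G u v) * (M ^ (k - 1 - (j : ℕ))) v x')

/-- a good pair of end points for a block of length `h` -/
def Ch.Good {X E Y : Type} [Fintype X] [Fintype E] [Fintype Y] (c : Ch X E Y) (Lam eta cc : ℝ) (h : ℕ)
    (x x' : X) : Prop :=
  eta ≤ c.P h x x' ∧ c.DE Lam h x x' ≤ cc * c.P h x x'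

/-- the letters which are frozen by the end points of a block of length `h` -/
def Ch.Fr {X E Y : Type} [Fintype X] [Fintype E] (c : Ch X E Y) (zeta : ℝ) (h : ℕ) (x x' : X) : Set Y :=
  {y | zeta * c.P h x x' ≤ c.Occ h x x' y}

/-- the children of a skeleton are good with pairwise disjoint sets of frozen letters -/
def Ch.GoodSk {X E Y : Type} [Fintype X] [Fintype E] [Fintype Y] (c : Ch X E Y) (Lam eta cc zeta : ℝ)
    (k h' : ℕ) (s : Fin (k + 1) → X) : Prop :=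
  (∀ i : Fin k, c.Good Lam eta cc h' (s i.castSucc) (s i.succ)) ∧
  ∀ i j : Fin k, i < j →
    Disjoint (c.Fr zeta h' (s i.castSucc) (s i.succ)) (c.Fr zeta h' (s j.castSucc) (s j.succ))

/-- the weight of the exceptional paths in `BWB` -/
noncomputable def tau0 (kap b : ℝ) : ℝ := 8 * kap * Real.exp (-(b / (4 * kap)))

/-- IL: a good block has good children with disjoint frozen sets, up to a quarter -/
def T_IL : Prop :=
  ∀ (X E Y : Type) [Fintype X] [Fintype E] [Fintype Y] (c : Ch X E Y)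
    (Lam eta cc eta' cc' zeta' kap b : ℝ) (k h' : ℕ),
    Real.exp 1 < Lam → 0 < h' → 0 < k → 0 < kap → 0 ≤ b → c.UseLe (k * h') kap →
    c.rev.UseLe (k * h') kap → 0 < eta → eta ≤ 1 → 0 < eta' → 16 * k * eta' ≤ eta → 0 ≤ cc → 0 < cc' →
    0 < zeta' → Lam * (b + tau0 kap b / eta') ≤ zeta' / 2 →
    (1 / cc' + 4 / zeta' ^ 2) * (cc + 2 * Lam * (b * (k * (Real.log (1 / eta) / (Real.log Lam - 1))) +
      tau0 kap b * ((k * h' : ℝ) * Fintype.card X) / eta)) ≤ 1 / 8 →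
    ∀ x x' : X, c.Good Lam eta cc (k * h') x x' →
      ∑ s : Fin (k + 1) → X, (if s 0 = x ∧ s (Fin.last k) = x' ∧ ¬ c.GoodSk Lam eta' cc' zeta' k h' s
        then skW (c.K ^ h') k s else 0) ≤ 1 / 4 * c.P (k * h') x x'

/-- TOP: most pairs of end points are good -/
def T_TOP : Prop :=
  ∀ (X E Y : Type) [Fintype X] [Fintype E] [Fintype Y] (c : Ch X E Y) (Lam eta cc kap : ℝ) (n : ℕ),
    Real.exp 1 < Lam → 0 < eta → 0 < cc → 0 ≤ kap → c.UseLe n kap →
    ∀ s : X → ℝ, (∀ x, 0 ≤ s x) → ∑ x, s x ≤ 1 →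
      ∑ x, ∑ x', (if c.Good Lam eta cc n x x' then 0 else s x * c.P n x x') ≤
        eta * Fintype.card X +
          kap * ((Real.log ((n + 1) * Fintype.card X) + 1) / (Real.log Lam - 1)) / cc

end Pool.Agent.H90.SPW
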